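import Mathlib
import Pool.Prelude.Def_F_6b01053b

set_option autoImplicit false

namespace Pool.Agent.H60.CT

/-- The circulant graph on `ℤ/35` with distances `1, 7, 11, 16` as a Boolean relation. -/
def adjb (v u : ℕ) : Bool := Nat.testBit 17465673858 ((u + 35 - v) % 35)

/-- If true: no independent set with `k` elements inside the list. -/
def noInd : ℕ → List ℕ → ℕ → Bool
  | 0, _, _ => false
  | _ + 1, [], k => !(k == 0)
  | _ + 1, _ :: _, 0 => false
  | f + 1, v :: l, k + 1 =>
      (Nat.blt l.length k) || (noInd f (l.filter (fun u => !(adjb v u))) k && noInd f l (k + 1))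

lemma noInd_sound : ∀ (f : ℕ) (l : List ℕ) (k : ℕ), noInd f l k = true → ∀ s : Finset ℕ,
    (∀ x ∈ s, x ∈ l) → (∀ x ∈ s, ∀ y ∈ s, x ≠ y → adjb x y = false) → s.card < k := by
  intro f
  induction f with
  | zero => intro l k h; simp [noInd] at h
  | succ f ih =>
    intro l k h s hs hind
    cases l with
    | nil =>
      have h0 : s = ∅ := by
        apply Finset.eq_empty_of_forall_notMem
        intro x hx
        simpa using hs x hx
      simp [noInd] at h
      subst h0
      simp
      omega
    | cons v l =>
      cases k with
      | zero => simp [noInd] at h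
      | succ k =>
        simp only [noInd, Bool.or_eq_true, Bool.and_eq_true] at h
        rcases h with h | ⟨h1, h2⟩
        · have hlen : l.length < k := by
            rw [Nat.blt_eq] at h
            exact h
          have hsub : s ⊆ (v :: l).toFinset := fun x hx => List.mem_toFinset.2 (hs x hx)
          have h3 := Finset.card_le_card hsub
          have h4 := List.toFinset_card_le (v :: l)
          simp only [List.length_cons] at h4
          omega
        · by_cases hv : v ∈ s
          · have h3 := ih _ k h1 (s.erase v) (by
              intro x hx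
              have hx' := Finset.mem_erase.1 hx
              rw [List.mem_filter]
              have hxl := hs x hx'.2
              refine ⟨?_, ?_⟩
              · rcases List.mem_cons.1 hxl with h | h
                · exact absurd h hx'.1
                · exact h
              · rw [hind v hv x hx'.2 (Ne.symm hx'.1)]
                rfl) (by
              intro x hx y hy hxy
              exact hind x (Finset.mem_of_mem_erase hx) y (Finset.mem_of_mem_erase hy) hxy)
            have h5 := Finset.card_erase_of_mem hv
            omega
          · exact ih l (k + 1) h2 s (by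
              intro x hx
              rcases List.mem_cons.1 (hs x hx) with h | h
              · exact absurd (h ▸ hx) hv
              · exact h) hind

theorem noInd_35 : noInd 40 (List.range 35) 9 = true := by
  decide +kernel

theorem adjb_symm_all : ((List.range 35).all fun i => (List.range 35).all fun j =>
    adjb i j == adjb j i) = true := by
  decide +kernel

theorem adjb_irrefl_all : ((List.range 35).all fun i => !(adjb i i)) = true := by
  decide +kernel

theorem adjb_tf_all : ((List.range 35).all fun i => (List.range 35).all fun j =>
    !(adjb i j) || ((List.range 35).all fun k => !(adjb i k) || !(adjb j k))) = true := by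
  decide +kernel

lemma adjb_symm {i j : ℕ} (hi : i < 35) (hj : j < 35) : adjb i j = adjb j i := by
  have h := adjb_symm_all
  rw [List.all_eq_true] at h
  have h1 := h i (List.mem_range.2 hi)
  rw [List.all_eq_true] at h1
  have h2 := h1 j (List.mem_range.2 hj)
  exact beq_iff_eq.1 h2

lemma adjb_irrefl {i : ℕ} (hi : i < 35) : adjb i i = false := by
  have h := adjb_irrefl_all
  rw [List.all_eq_true] at h
  have h1 := h i (List.mem_range.2 hi)
  simpa using h1

lemma adjb_tf {i j k : ℕ} (hi : i < 35) (hj : j < 35) (hk : k < 35) (h1 : adjb i j = true)
    (h2 : adjb i k = true) (h3 : adjb j k = true) : False := by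
  have h := adjb_tf_all
  rw [List.all_eq_true] at h
  have h4 := h i (List.mem_range.2 hi)
  rw [List.all_eq_true] at h4
  have h5 := h4 j (List.mem_range.2 hj)
  rw [h1] at h5
  simp only [Bool.not_true, Bool.false_or, List.all_eq_true] at h5
  have h6 := h5 k (List.mem_range.2 hk)
  rw [h2, h3] at h6
  simp at h6

open SimpleGraph

/-- The circulant graph restricted to the first `n ≤ 35` vertices. -/
def circ (n : ℕ) (hn : n ≤ 35) : SimpleGraph (Fin n) where
  Adj i j := adjb i j = true
  symm := ⟨fun i j h => by
    rw [adjb_symm (by omega) (by omega)]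
    exact h⟩
  loopless := ⟨fun i h => by
    have := adjb_irrefl (i := i) (by omega)
    rw [this] at h
    exact absurd h (by simp)⟩

lemma circ_cliqueFree (n : ℕ) (hn : n ≤ 35) : (circ n hn).CliqueFree 3 := by
  intro t ht
  obtain ⟨a, b, c, hab, hac, hbc, rfl⟩ := is3Clique_iff.mp ht
  exact adjb_tf (by omega) (by omega) (by omega) hab hac hbc

lemma circ_indep (n : ℕ) (hn : n ≤ 35) (s : Finset (Fin n))
    (hs : (circ n hn).IsIndepSet (s : Set (Fin n))) : s.card ≤ 8 := by
  have h := noInd_sound 40 (List.range 35) 9 noInd_35 (s.map Fin.valEmbedding) (by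
    intro x hx
    rw [Finset.mem_map] at hx
    obtain ⟨a, _, rfl⟩ := hx
    rw [List.mem_range]
    simp only [Fin.valEmbedding_apply]
    omega) (by
    intro x hx y hy hxy
    rw [Finset.mem_map] at hx hy
    obtain ⟨a, ha, rfl⟩ := hx
    obtain ⟨b, hb, rfl⟩ := hy
    have hab : a ≠ b := fun h => hxy (by rw [h])
    have h1 := hs ha hb hab
    by_contra h2
    exact h1 (by simpa [circ] using h2))
  rw [Finset.card_map] at h
  omega

/-- `H n ≤ 8` for `n ≤ 35` (that is, `R(3,9) > 35`). -/
theorem H_le_eight (n : ℕ) (hn : n ≤ 35) : N514b8c3a.H n ≤ 8 := by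
  apply csSup_le'
  intro k hk
  obtain ⟨s, hs⟩ := hk (circ n hn) (circ_cliqueFree n hn)
  have := circ_indep n hn s hs.isIndepSet
  have h2 := hs.card_eq
  omega

end Pool.Agent.H60.CT
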