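import Mathlib

set_option autoImplicit false

namespace Pool.Agent.H60.CT

open Finset

/-- `G[W]` becomes bipartite (with one side `A ∩ W`) after deleting at most the edge `xy`. -/
def NB {α : Type*} (G : SimpleGraph α) (W : Finset α) : Prop :=
  ∃ (A : Finset α) (x y : α), ∀ a ∈ W, ∀ b ∈ W, G.Adj a b → (a ∈ A ↔ b ∈ A) →
    (a = x ∧ b = y) ∨ (a = y ∧ b = x)

variable {α : Type*} [DecidableEq α] (G : SimpleGraph α)

/-- The neighbours of `v` in `W`. -/
noncomputable def nb (W : Finset α) (v : α) : Finset α := by
  classical exact W.filter (fun u => G.Adj v u)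

omit [DecidableEq α] in
lemma mem_nb {W : Finset α} {v u : α} : u ∈ nb G W v ↔ u ∈ W ∧ G.Adj v u := by
  classical
  simp [nb]

variable {G}

lemma nb_of_le_two {R : Finset α} (hR : R.card ≤ 2) (w : α) : ∃ x y : α, R ⊆ {x, y} := by
  rcases Nat.lt_or_ge R.card 1 with h | h
  · have : R = ∅ := Finset.card_eq_zero.mp (by omega)
    exact ⟨w, w, by simp [this]⟩
  · rcases Nat.lt_or_ge R.card 2 with h2 | h2
    · obtain ⟨x, hx⟩ := Finset.card_eq_one.mp (show R.card = 1 by omega)
      exact ⟨x, x, by simp [hx]⟩
    · obtain ⟨x, y, _, hxy⟩ := Finset.card_eq_two.mp (show R.card = 2 by omega)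
      exact ⟨x, y, by simp [hxy]⟩

/-- Adding a vertex with at most one neighbour keeps `NB`. -/
lemma NB_insert {W : Finset α} {w : α} (hw : w ∈ W) (hdeg : (nb G W w).card ≤ 1)
    (h : NB G (W.erase w)) : NB G W := by
  classical
  obtain ⟨A, x, y, hA⟩ := h
  -- the unique neighbour
  by_cases hne : ∃ u, u ∈ nb G W w
  · obtain ⟨u, hu⟩ := hne
    have huniq : ∀ z ∈ W, G.Adj w z → z = u := by
      intro z hz hzw
      have h1 : z ∈ nb G W w := (mem_nb G).2 ⟨hz, hzw⟩
      exact Finset.card_le_one.mp hdeg z h1 u hu
    have huW := ((mem_nb G).1 hu).1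
    have huw := ((mem_nb G).1 hu).2
    have hne : u ≠ w := fun h => G.loopless.irrefl w (h ▸ huw)
    -- put `w` on the side opposite to `u`
    let A' : Finset α := if u ∈ A then A.erase w else insert w A
    have hA'w : (w ∈ A' ↔ ¬ u ∈ A') := by
      by_cases hu : u ∈ A <;> simp [A', hu, hne]
    have hA' : ∀ z, z ≠ w → (z ∈ A' ↔ z ∈ A) := by
      intro z hz
      by_cases hu : u ∈ A <;> simp [A', hu, hz]
    refine ⟨A', x, y, ?_⟩
    intro a ha b hb hab hs
    by_cases haw : a = w
    · subst haw
      have := huniq b hb hab
      subst this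
      tauto
    · by_cases hbw : b = w
      · subst hbw
        have := huniq a ha hab.symm
        subst this
        tauto
      · exact hA a (Finset.mem_erase.2 ⟨haw, ha⟩) b (Finset.mem_erase.2 ⟨hbw, hb⟩) hab
          (by rw [hA' a haw, hA' b hbw] at hs; exact hs)
  · push Not at hne
    refine ⟨A, x, y, ?_⟩
    intro a ha b hb hab hs
    by_cases haw : a = w
    · subst haw
      exact absurd ((mem_nb G).2 ⟨hb, hab⟩) (hne b)
    · by_cases hbw : b = w
      · subst hbw
        exact absurd ((mem_nb G).2 ⟨ha, hab.symm⟩) (hne a)
      · exact hA a (Finset.mem_erase.2 ⟨haw, ha⟩) b (Finset.mem_erase.2 ⟨hbw, hb⟩) hab hs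

/-- No triangle inside `W`. -/
def TF (G : SimpleGraph α) (W : Finset α) : Prop :=
  ∀ a ∈ W, ∀ b ∈ W, ∀ c ∈ W, G.Adj a b → G.Adj a c → G.Adj b c → False

omit [DecidableEq α] in
lemma TF.mono {W W' : Finset α} (h : TF G W) (hs : W' ⊆ W) : TF G W' :=
  fun a ha b hb c hc => h a (hs ha) b (hs hb) c (hs hc)

/-- A vertex with at least four neighbours. -/
lemma NB_of_four {W : Finset α} (hT : TF G W) (h7 : W.card ≤ 7) {v : α} (hv : v ∈ W)
    (h4 : 4 ≤ (nb G W v).card) : NB G W := by
  classical
  set N := nb G W v with hN
  have hNW : N ⊆ W := fun z hz => ((mem_nb G).1 hz).1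
  have hvN : v ∉ N := fun h => G.loopless.irrefl v ((mem_nb G).1 h).2
  set R := (W \ N).erase v with hR
  have hRcard : R.card ≤ 2 := by
    have h1 : (W \ N).card = W.card - N.card := Finset.card_sdiff_of_subset hNW
    have h2 : v ∈ W \ N := Finset.mem_sdiff.2 ⟨hv, hvN⟩
    have h3 : R.card = (W \ N).card - 1 := Finset.card_erase_of_mem h2
    omega
  obtain ⟨x, y, hxy⟩ := nb_of_le_two hRcard v
  refine ⟨N, x, y, ?_⟩
  intro a ha b hb hab hs
  by_cases haN : a ∈ N
  · have hbN : b ∈ N := hs.1 haN
    exact absurd (hT v hv a ha b hb ((mem_nb G).1 haN).2 ((mem_nb G).1 hbN).2 hab) id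
  · have hbN : b ∉ N := fun h => haN (hs.2 h)
    have hav : a ≠ v := by
      rintro rfl
      exact hbN ((mem_nb G).2 ⟨hb, hab⟩)
    have hbv : b ≠ v := by
      rintro rfl
      exact haN ((mem_nb G).2 ⟨ha, hab.symm⟩)
    have haR : a ∈ R := Finset.mem_erase.2 ⟨hav, Finset.mem_sdiff.2 ⟨ha, haN⟩⟩
    have hbR : b ∈ R := Finset.mem_erase.2 ⟨hbv, Finset.mem_sdiff.2 ⟨hb, hbN⟩⟩
    have ha' := hxy haR
    have hb' := hxy hbR
    simp only [Finset.mem_insert, Finset.mem_singleton] at ha' hb'
    rcases ha' with rfl | rfl <;> rcases hb' with rfl | rfl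
    · exact absurd hab (G.loopless.irrefl _)
    · exact Or.inl ⟨rfl, rfl⟩
    · exact Or.inr ⟨rfl, rfl⟩
    · exact absurd hab (G.loopless.irrefl _)

/-- A vertex with exactly three neighbours, all degrees at most three. -/
lemma NB_of_three {W : Finset α} (hT : TF G W) (h7 : W.card ≤ 7) {v : α} (hv : v ∈ W)
    (h3 : (nb G W v).card = 3) (hmax : ∀ w ∈ W, (nb G W w).card ≤ 3) : NB G W := by
  classical
  set N := nb G W v with hN
  have hNW : N ⊆ W := fun z hz => ((mem_nb G).1 hz).1
  have hvN : v ∉ N := fun h => G.loopless.irrefl v ((mem_nb G).1 h).2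
  set R := (W \ N).erase v with hR
  have hRcard : R.card ≤ 3 := by
    have h1 : (W \ N).card = W.card - N.card := Finset.card_sdiff_of_subset hNW
    have h2 : v ∈ W \ N := Finset.mem_sdiff.2 ⟨hv, hvN⟩
    have h3 : R.card = (W \ N).card - 1 := Finset.card_erase_of_mem h2
    omega
  have hRW : R ⊆ W := fun z hz => (Finset.mem_sdiff.1 (Finset.mem_erase.1 hz).2).1
  have hRN : ∀ z ∈ R, z ∉ N := fun z hz => (Finset.mem_sdiff.1 (Finset.mem_erase.1 hz).2).2
  have hRv : ∀ z ∈ R, z ≠ v := fun z hz => (Finset.mem_erase.1 hz).1
  have hcover : ∀ z ∈ W, z = v ∨ z ∈ N ∨ z ∈ R := by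
    intro z hz
    by_cases h1 : z = v
    · exact Or.inl h1
    · by_cases h2 : z ∈ N
      · exact Or.inr (Or.inl h2)
      · exact Or.inr (Or.inr (Finset.mem_erase.2 ⟨h1, Finset.mem_sdiff.2 ⟨hz, h2⟩⟩))
  -- `v` has no neighbour in `R`
  have hvR : ∀ z ∈ R, ¬ G.Adj v z := fun z hz h => hRN z hz ((mem_nb G).2 ⟨hRW hz, h⟩)
  have hNN : ∀ a ∈ N, ∀ b ∈ N, ¬ G.Adj a b := fun a ha b hb hab =>
    hT v hv a (hNW ha) b (hNW hb) ((mem_nb G).1 ha).2 ((mem_nb G).1 hb).2 hab
  by_cases hq : ∃ q ∈ R, ∃ p ∈ R, ∃ r ∈ R, p ≠ r ∧ G.Adj q p ∧ G.Adj q r
  · obtain ⟨q, hqR, p, hpR, r, hrR, hpr, hqp, hqr⟩ := hq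
    have hpq : p ≠ q := fun h => G.loopless.irrefl q (h ▸ hqp)
    have hrq : r ≠ q := fun h => G.loopless.irrefl q (h ▸ hqr)
    have hRe : R = {p, q, r} := by
      symm
      apply Finset.eq_of_subset_of_card_le
      · intro z hz
        simp only [Finset.mem_insert, Finset.mem_singleton] at hz
        rcases hz with rfl | rfl | rfl <;> assumption
      · rw [Finset.card_insert_of_notMem (by simp [hpq, hpr]),
          Finset.card_insert_of_notMem (by simp [hrq.symm]), Finset.card_singleton]
        exact hRcard
    have hpr' : ¬ G.Adj p r := fun h => hT q (hRW hqR) p (hRW hpR) r (hRW hrR) hqp hqr h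
    -- `q` has at most one neighbour in `N`
    have hone : ∀ z ∈ N, ∀ z' ∈ N, G.Adj q z → G.Adj q z' → z = z' := by
      intro z hz z' hz' hqz hqz'
      by_contra hne
      have hsub : ({p, r, z, z'} : Finset α) ⊆ nb G W q := by
        intro t ht
        simp only [Finset.mem_insert, Finset.mem_singleton] at ht
        rcases ht with rfl | rfl | rfl | rfl
        · exact (mem_nb G).2 ⟨hRW hpR, hqp⟩
        · exact (mem_nb G).2 ⟨hRW hrR, hqr⟩
        · exact (mem_nb G).2 ⟨hNW hz, hqz⟩
        · exact (mem_nb G).2 ⟨hNW hz', hqz'⟩
      have hc : ({p, r, z, z'} : Finset α).card = 4 := by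
        have h1 : p ≠ z := fun h => hRN p hpR (h ▸ hz)
        have h2 : p ≠ z' := fun h => hRN p hpR (h ▸ hz')
        have h3 : r ≠ z := fun h => hRN r hrR (h ▸ hz)
        have h4 : r ≠ z' := fun h => hRN r hrR (h ▸ hz')
        rw [Finset.card_insert_of_notMem (by simp [hpr, h1, h2]),
          Finset.card_insert_of_notMem (by simp [h3, h4]),
          Finset.card_insert_of_notMem (by simp [hne]), Finset.card_singleton]
      have := Finset.card_le_card hsub
      have := hmax q (hRW hqR)
      omega
    -- the exceptional edge
    have hz0 : ∃ z0, ∀ z ∈ N, G.Adj q z → z = z0 := by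
      by_cases h : ∃ z ∈ N, G.Adj q z
      · obtain ⟨z0, hz0, hqz0⟩ := h
        exact ⟨z0, fun z hz hqz => hone z hz z0 hz0 hqz hqz0⟩
      · push Not at h
        exact ⟨q, fun z hz hqz => absurd hqz (h z hz)⟩
    obtain ⟨z0, hz0⟩ := hz0
    refine ⟨insert q N, q, z0, ?_⟩
    intro a ha b hb hab hs
    have hqN : q ∉ N := hRN q hqR
    rw [Finset.mem_insert, Finset.mem_insert] at hs
    by_cases haq : a = q
    · subst haq
      have hbq : b ≠ a := fun h => G.loopless.irrefl a (h ▸ hab)
      have hbN : b ∈ N := by
        rcases hs.1 (Or.inl rfl) with h | h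
        · exact absurd h hbq
        · exact h
      exact Or.inl ⟨rfl, hz0 b hbN hab⟩
    · by_cases hbq : b = q
      · subst hbq
        have haN : a ∈ N := by
          rcases hs.2 (Or.inl rfl) with h | h
          · exact absurd h haq
          · exact h
        exact Or.inr ⟨hz0 a haN hab.symm, rfl⟩
      · exfalso
        have hs' : a ∈ N ↔ b ∈ N := by
          constructor
          · intro h
            rcases hs.1 (Or.inr h) with h | h
            · exact absurd h hbq
            · exact h
          · intro h
            rcases hs.2 (Or.inr h) with h | h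
            · exact absurd h haq
            · exact h
        by_cases haN : a ∈ N
        · exact hNN a haN b (hs'.1 haN) hab
        · have hbN : b ∉ N := fun h => haN (hs'.2 h)
          have ha3 : a = v ∨ a = p ∨ a = r := by
            rcases hcover a ha with h | h | h
            · exact Or.inl h
            · exact absurd h haN
            · rw [hRe] at h
              simp only [Finset.mem_insert, Finset.mem_singleton] at h
              tauto
          have hb3 : b = v ∨ b = p ∨ b = r := by
            rcases hcover b hb with h | h | h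
            · exact Or.inl h
            · exact absurd h hbN
            · rw [hRe] at h
              simp only [Finset.mem_insert, Finset.mem_singleton] at h
              tauto
          rcases ha3 with rfl | rfl | rfl <;> rcases hb3 with rfl | rfl | rfl
          · exact G.loopless.irrefl _ hab
          · exact hvR _ hpR hab
          · exact hvR _ hrR hab
          · exact hvR _ hpR hab.symm
          · exact G.loopless.irrefl _ hab
          · exact hpr' hab
          · exact hvR _ hrR hab.symm
          · exact hpr' hab.symm
          · exact G.loopless.irrefl _ hab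
  · -- at most one edge inside `R`
    have hqN : ∀ q ∈ R, ∀ p ∈ R, ∀ r ∈ R, G.Adj q p → G.Adj q r → p = r := by
      intro q hq' p hp r hr h1 h2
      by_contra hne
      exact hq ⟨q, hq', p, hp, r, hr, hne, h1, h2⟩
    by_cases he : ∃ x ∈ R, ∃ y ∈ R, G.Adj x y
    · obtain ⟨x, hx, y, hy, hxy⟩ := he
      refine ⟨N, x, y, ?_⟩
      intro a ha b hb hab hs
      by_cases haN : a ∈ N
      · exact absurd hab (hNN a haN b (hs.1 haN))
      · have hbN : b ∉ N := fun h => haN (hs.2 h)
        have haR : a ∈ R := by
          rcases hcover a ha with h | h | h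
          · exact absurd ((mem_nb G).2 ⟨hb, h ▸ hab⟩) hbN
          · exact absurd h haN
          · exact h
        have hbR : b ∈ R := by
          rcases hcover b hb with h | h | h
          · exact absurd ((mem_nb G).2 ⟨ha, h ▸ hab.symm⟩) haN
          · exact absurd h hbN
          · exact h
        -- two disjoint edges need four vertices
        have hne : x ≠ y := fun h => G.loopless.irrefl y (h ▸ hxy)
        have habne : a ≠ b := fun h => G.loopless.irrefl b (h ▸ hab)
        by_cases hax : a = x
        · subst hax
          exact Or.inl ⟨rfl, hqN a haR b hbR y hy hab hxy⟩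
        · by_cases hay : a = y
          · subst hay
            exact Or.inr ⟨rfl, hqN a haR b hbR x hx hab hxy.symm⟩
          · exfalso
            have hbx : b ≠ x := by
              rintro rfl
              exact hay (hqN b hbR a haR y hy hab.symm hxy)
            have hby : b ≠ y := by
              rintro rfl
              exact hax (hqN b hbR a haR x hx hab.symm hxy.symm)
            have hsub : ({a, b, x, y} : Finset α) ⊆ R := by
              intro t ht
              simp only [Finset.mem_insert, Finset.mem_singleton] at ht
              rcases ht with rfl | rfl | rfl | rfl <;> assumption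
            have hc : ({a, b, x, y} : Finset α).card = 4 := by
              rw [Finset.card_insert_of_notMem (by simp [habne, hax, hay]),
                Finset.card_insert_of_notMem (by simp [hbx, hby]),
                Finset.card_insert_of_notMem (by simp [hne]), Finset.card_singleton]
            have := Finset.card_le_card hsub
            omega
    · push Not at he
      refine ⟨N, v, v, ?_⟩
      intro a ha b hb hab hs
      exfalso
      by_cases haN : a ∈ N
      · exact absurd hab (hNN a haN b (hs.1 haN))
      · have hbN : b ∉ N := fun h => haN (hs.2 h)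
        rcases hcover a ha with h | h | h
        · exact hbN ((mem_nb G).2 ⟨hb, h ▸ hab⟩)
        · exact absurd h haN
        · rcases hcover b hb with h' | h' | h'
          · exact haN ((mem_nb G).2 ⟨ha, h' ▸ hab.symm⟩)
          · exact absurd h' hbN
          · exact he a h b h' hab

/-- All degrees are two. -/
lemma NB_of_two {W : Finset α} (hT : TF G W) (h7 : W.card ≤ 7)
    (h2 : ∀ w ∈ W, (nb G W w).card = 2) {v : α} (hv : v ∈ W) : NB G W := by
  classical
  -- the two neighbours of a vertex
  have hpair : ∀ w ∈ W, ∀ p ∈ W, G.Adj w p → ∃ q ∈ W, q ≠ p ∧ G.Adj w q ∧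
      ∀ z ∈ W, G.Adj w z → z = p ∨ z = q := by
    intro w hw p hp hwp
    obtain ⟨s, t, hst, he⟩ := Finset.card_eq_two.mp (h2 w hw)
    have hs : s ∈ nb G W w := by rw [he]; simp
    have ht : t ∈ nb G W w := by rw [he]; simp
    have hpm : p ∈ nb G W w := (mem_nb G).2 ⟨hp, hwp⟩
    rw [he] at hpm
    simp only [Finset.mem_insert, Finset.mem_singleton] at hpm
    rcases hpm with rfl | rfl
    · refine ⟨t, ((mem_nb G).1 ht).1, hst.symm, ((mem_nb G).1 ht).2, ?_⟩
      intro z hz hwz
      have : z ∈ nb G W w := (mem_nb G).2 ⟨hz, hwz⟩
      rw [he] at this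
      simpa using this
    · refine ⟨s, ((mem_nb G).1 hs).1, hst, ((mem_nb G).1 hs).2, ?_⟩
      intro z hz hwz
      have : z ∈ nb G W w := (mem_nb G).2 ⟨hz, hwz⟩
      rw [he] at this
      simp only [Finset.mem_insert, Finset.mem_singleton] at this
      tauto
  have hirr : ∀ {p q : α}, G.Adj p q → p ≠ q := fun h e => G.loopless.irrefl _ (e ▸ h)
  obtain ⟨a, b, hab, he⟩ := Finset.card_eq_two.mp (h2 v hv)
  have ha : a ∈ nb G W v := by rw [he]; simp
  have hb : b ∈ nb G W v := by rw [he]; simp
  have haW := ((mem_nb G).1 ha).1
  have hbW := ((mem_nb G).1 hb).1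
  have hva := ((mem_nb G).1 ha).2
  have hvb := ((mem_nb G).1 hb).2
  have hvN : ∀ z ∈ W, G.Adj v z → z = a ∨ z = b := by
    intro z hz hvz
    have : z ∈ nb G W v := (mem_nb G).2 ⟨hz, hvz⟩
    rw [he] at this
    simpa using this
  obtain ⟨a', ha'W, ha'v, haa', haN⟩ := hpair a haW v hv hva.symm
  obtain ⟨b', hb'W, hb'v, hbb', hbN⟩ := hpair b hbW v hv hvb.symm
  have hnab : ¬ G.Adj a b := fun h => hT v hv a haW b hbW hva hvb h
  by_cases hEq : a' = b'
  · -- a four-cycle `v a a' b`
    subst hEq
    obtain ⟨c, hcW, hca, ha'c, ha'N⟩ := hpair a' ha'W a haW haa'.symm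
    have hcb : c = b := by
      rcases ha'N b hbW hbb'.symm with h | h
      · exact absurd h hab.symm
      · exact h.symm
    subst hcb
    -- the rest `T`
    have hT0 : ∀ t ∈ W, t = v ∨ t = a ∨ t = c ∨ t = a' := by
      by_contra hcon
      push Not at hcon
      obtain ⟨t, htW, htv, hta, htb, hta'⟩ := hcon
      set T := W \ {v, a, c, a'} with hTdef
      have hTc : T.card ≤ 3 := by
        have hsub : ({v, a, c, a'} : Finset α) ⊆ W := by
          intro z hz
          simp only [Finset.mem_insert, Finset.mem_singleton] at hz
          rcases hz with rfl | rfl | rfl | rfl <;> assumption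
        have h1 : T.card = W.card - ({v, a, c, a'} : Finset α).card :=
          Finset.card_sdiff_of_subset hsub
        have h2 : ({v, a, c, a'} : Finset α).card = 4 := by
          rw [Finset.card_insert_of_notMem (by simp [hirr hva, hirr hvb, ha'v.symm]),
            Finset.card_insert_of_notMem (by simp [hab, hirr haa']),
            Finset.card_insert_of_notMem (by simp [hirr hbb']), Finset.card_singleton]
        omega
      -- neighbours of elements of `T` lie in `T`
      have hclosed : ∀ s ∈ T, ∀ z ∈ W, G.Adj s z → z ∈ T := by
        intro s hs z hz hsz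
        rw [hTdef, Finset.mem_sdiff] at hs ⊢
        refine ⟨hz, ?_⟩
        intro hz4
        apply hs.2
        simp only [Finset.mem_insert, Finset.mem_singleton] at hz4 ⊢
        rcases hz4 with rfl | rfl | rfl | rfl
        · rcases hvN s hs.1 hsz.symm with h | h <;> simp [h]
        · rcases haN s hs.1 hsz.symm with h | h <;> simp [h]
        · rcases hbN s hs.1 hsz.symm with h | h <;> simp [h]
        · rcases ha'N s hs.1 hsz.symm with h | h <;> simp [h]
      have htT : t ∈ T := by
        rw [hTdef, Finset.mem_sdiff]
        exact ⟨htW, by simp [htv, hta, htb, hta']⟩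
      obtain ⟨t1, t2, h12, hte⟩ := Finset.card_eq_two.mp (h2 t htW)
      have ht1 : t1 ∈ nb G W t := by rw [hte]; simp
      have ht2 : t2 ∈ nb G W t := by rw [hte]; simp
      have ht1W := ((mem_nb G).1 ht1).1
      have ht2W := ((mem_nb G).1 ht2).1
      have htt1 := ((mem_nb G).1 ht1).2
      have htt2 := ((mem_nb G).1 ht2).2
      have ht1T := hclosed t htT t1 ht1W htt1
      have ht2T := hclosed t htT t2 ht2W htt2
      have hTe : T = {t, t1, t2} := by
        symm
        apply Finset.eq_of_subset_of_card_le
        · intro z hz
          simp only [Finset.mem_insert, Finset.mem_singleton] at hz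
          rcases hz with rfl | rfl | rfl <;> assumption
        · rw [Finset.card_insert_of_notMem (by simp [hirr htt1, hirr htt2]),
            Finset.card_insert_of_notMem (by simp [h12]), Finset.card_singleton]
          exact hTc
      obtain ⟨q, hqW, hqt, ht1q, _⟩ := hpair t1 ht1W t htW htt1.symm
      have hqT := hclosed t1 ht1T q hqW ht1q
      rw [hTe] at hqT
      simp only [Finset.mem_insert, Finset.mem_singleton] at hqT
      rcases hqT with h | h | h
      · exact hqt h
      · exact hirr ht1q h.symm
      · subst h
        exact hT t htW t1 ht1W q hqW htt1 htt2 ht1q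
    refine ⟨{a, c}, v, v, ?_⟩
    intro p hp q hq hpq hs
    exfalso
    simp only [Finset.mem_insert, Finset.mem_singleton] at hs
    have hva' : ¬ G.Adj v a' := by
      intro h
      rcases hvN a' ha'W h with h | h
      · exact hirr haa' h.symm
      · exact hirr hbb' h.symm
    rcases hT0 p hp with rfl | rfl | rfl | rfl <;> rcases hT0 q hq with rfl | rfl | rfl | rfl
    · exact hirr hpq rfl
    · exact absurd (hs.2 (Or.inl rfl)) (by simp [hirr hva, hirr hvb])
    · exact absurd (hs.2 (Or.inr rfl)) (by simp [hirr hva, hirr hvb])
    · exact hva' hpq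
    · exact absurd (hs.1 (Or.inl rfl)) (by simp [hirr hva, hirr hvb])
    · exact hirr hpq rfl
    · exact hnab hpq
    · exact absurd (hs.1 (Or.inl rfl)) (by simp [(hirr haa').symm, (hirr hbb').symm])
    · exact absurd (hs.1 (Or.inr rfl)) (by simp [hirr hva, hirr hvb])
    · exact hnab hpq.symm
    · exact hirr hpq rfl
    · exact absurd (hs.1 (Or.inr rfl)) (by simp [(hirr haa').symm, (hirr hbb').symm])
    · exact hva' hpq.symm
    · exact absurd (hs.2 (Or.inl rfl)) (by simp [(hirr haa').symm, (hirr hbb').symm])
    · exact absurd (hs.2 (Or.inr rfl)) (by simp [(hirr haa').symm, (hirr hbb').symm])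
    · exact hirr hpq rfl
  · -- `a' ≠ b'`
    have ha'b : a' ≠ b := fun h => hnab (h ▸ haa')
    have hb'a : b' ≠ a := fun h => hnab (h ▸ hbb').symm
    set C : Finset α := {v, a, b, a', b'} with hC
    set T := W \ C with hTdef
    have hCW : C ⊆ W := by
      intro z hz
      simp only [hC, Finset.mem_insert, Finset.mem_singleton] at hz
      rcases hz with rfl | rfl | rfl | rfl | rfl <;> assumption
    have hCc : C.card = 5 := by
      rw [hC, Finset.card_insert_of_notMem
        (by simp [hirr hva, hirr hvb, ha'v.symm, hb'v.symm]),
        Finset.card_insert_of_notMem (by simp [hab, hirr haa', hb'a.symm]),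
        Finset.card_insert_of_notMem (by simp [ha'b.symm, hirr hbb']),
        Finset.card_insert_of_notMem (by simp [hEq]), Finset.card_singleton]
    have hTc : T.card ≤ 2 := by
      have h1 : T.card = W.card - C.card := Finset.card_sdiff_of_subset hCW
      omega
    have hTmem : ∀ t, t ∈ T ↔ t ∈ W ∧ t ≠ v ∧ t ≠ a ∧ t ≠ b ∧ t ≠ a' ∧ t ≠ b' := by
      intro t
      simp [hTdef, hC]
    obtain ⟨x, y, hxy⟩ := nb_of_le_two hTc v
    by_cases hab' : G.Adj a' b'
    · -- five-cycle: nothing else
      obtain ⟨q, hqW, hqa, ha'q, ha'N⟩ := hpair a' ha'W a haW haa'.symm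
      obtain ⟨r, hrW, hrb, hb'r, hb'N⟩ := hpair b' hb'W b hbW hbb'.symm
      have hqb' : q = b' := by
        rcases ha'N b' hb'W hab' with h | h
        · exact absurd h hb'a
        · exact h.symm
      have hra' : r = a' := by
        rcases hb'N a' ha'W hab'.symm with h | h
        · exact absurd h ha'b
        · exact h.symm
      subst hqb'
      subst hra'
      have hTe : ∀ t ∈ T, False := by
        intro t ht
        have ht' := (hTmem t).1 ht
        obtain ⟨htW, htv, hta, htb, hta', htb'⟩ := ht'
        obtain ⟨t1, t2, h12, hte⟩ := Finset.card_eq_two.mp (h2 t htW)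
        have ht1 : t1 ∈ nb G W t := by rw [hte]; simp
        have ht2 : t2 ∈ nb G W t := by rw [hte]; simp
        have key : ∀ s ∈ nb G W t, s ∈ T := by
          intro s hs
          have hsW := ((mem_nb G).1 hs).1
          have hts := ((mem_nb G).1 hs).2
          rw [hTmem]
          refine ⟨hsW, ?_, ?_, ?_, ?_, ?_⟩
          · rintro rfl
            rcases hvN t htW hts.symm with h | h
            · exact hta h
            · exact htb h
          · rintro rfl
            rcases haN t htW hts.symm with h | h
            · exact htv h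
            · exact hta' h
          · rintro rfl
            rcases hbN t htW hts.symm with h | h
            · exact htv h
            · exact htb' h
          · rintro rfl
            rcases ha'N t htW hts.symm with h | h
            · exact hta h
            · exact htb' h
          · rintro rfl
            rcases hb'N t htW hts.symm with h | h
            · exact htb h
            · exact hta' h
        have hsub : ({t, t1, t2} : Finset α) ⊆ T := by
          intro z hz
          simp only [Finset.mem_insert, Finset.mem_singleton] at hz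
          rcases hz with rfl | rfl | rfl
          · exact ht
          · exact key _ ht1
          · exact key _ ht2
        have hc3 : ({t, t1, t2} : Finset α).card = 3 := by
          rw [Finset.card_insert_of_notMem
            (by simp [hirr ((mem_nb G).1 ht1).2, hirr ((mem_nb G).1 ht2).2]),
            Finset.card_insert_of_notMem (by simp [h12]), Finset.card_singleton]
        have := Finset.card_le_card hsub
        omega
      refine ⟨{a, b}, r, q, ?_⟩
      intro p hp s hs hps hside
      simp only [Finset.mem_insert, Finset.mem_singleton] at hside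
      have hcase : ∀ z ∈ W, z = v ∨ z = a ∨ z = b ∨ z = r ∨ z = q := by
        intro z hz
        by_contra hcon
        push Not at hcon
        exact hTe z ((hTmem z).2 ⟨hz, hcon.1, hcon.2.1, hcon.2.2.1, hcon.2.2.2.1,
          hcon.2.2.2.2⟩)
      by_cases hpA : p = a ∨ p = b
      · have hsA := hside.1 hpA
        exfalso
        rcases hpA with rfl | rfl <;> rcases hsA with rfl | rfl
        · exact hirr hps rfl
        · exact hnab hps
        · exact hnab hps.symm
        · exact hirr hps rfl
      · have hsA : ¬ (s = a ∨ s = b) := fun h => hpA (hside.2 h)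
        push Not at hpA hsA
        have hp3 : p = v ∨ p = r ∨ p = q := by
          rcases hcase p hp with h | h | h | h | h
          · exact Or.inl h
          · exact absurd h hpA.1
          · exact absurd h hpA.2
          · exact Or.inr (Or.inl h)
          · exact Or.inr (Or.inr h)
        have hs3 : s = v ∨ s = r ∨ s = q := by
          rcases hcase s hs with h | h | h | h | h
          · exact Or.inl h
          · exact absurd h hsA.1
          · exact absurd h hsA.2
          · exact Or.inr (Or.inl h)
          · exact Or.inr (Or.inr h)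
        have hv' : ∀ z ∈ W, z ≠ a → z ≠ b → ¬ G.Adj v z := by
          intro z hz h1 h2 h3
          rcases hvN z hz h3 with h | h
          · exact h1 h
          · exact h2 h
        rcases hp3 with rfl | rfl | rfl
        · exact absurd hps (hv' s hs hsA.1 hsA.2)
        · rcases hs3 with rfl | rfl | rfl
          · exact absurd hps.symm (hv' p hp hpA.1 hpA.2)
          · exact absurd rfl (hirr hps)
          · exact Or.inl ⟨rfl, rfl⟩
        · rcases hs3 with rfl | rfl | rfl
          · exact absurd hps.symm (hv' p hp hpA.1 hpA.2)
          · exact Or.inr ⟨rfl, rfl⟩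
          · exact absurd rfl (hirr hps)
    · -- `a' b'` not adjacent
      refine ⟨{a, b} ∪ T, x, y, ?_⟩
      intro p hp s hs hps hside
      by_cases hpA : p ∈ ({a, b} ∪ T : Finset α)
      · have hsA := hside.1 hpA
        simp only [Finset.mem_union, Finset.mem_insert, Finset.mem_singleton] at hpA hsA
        have haT : ∀ z ∈ W, z ≠ v → z ≠ a' → ¬ G.Adj a z := by
          intro z hz h1 h2 h3
          rcases haN z hz h3 with h | h
          · exact h1 h
          · exact h2 h
        have hbT : ∀ z ∈ W, z ≠ v → z ≠ b' → ¬ G.Adj b z := by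
          intro z hz h1 h2 h3
          rcases hbN z hz h3 with h | h
          · exact h1 h
          · exact h2 h
        rcases hpA with (h | h) | h
        · subst h
          exfalso
          rcases hsA with (h' | h') | h'
          · exact hirr hps h'.symm
          · exact hnab (h' ▸ hps)
          · have h'' := (hTmem s).1 h'
            exact haT s hs h''.2.1 h''.2.2.2.2.1 hps
        · subst h
          exfalso
          rcases hsA with (h' | h') | h'
          · exact hnab (h' ▸ hps).symm
          · exact hirr hps h'.symm
          · have h'' := (hTmem s).1 h'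
            exact hbT s hs h''.2.1 h''.2.2.2.2.2 hps
        · have hp' := (hTmem p).1 h
          rcases hsA with (h' | h') | h'
          · subst h'
            exact absurd hps.symm (haT p hp hp'.2.1 hp'.2.2.2.2.1)
          · subst h'
            exact absurd hps.symm (hbT p hp hp'.2.1 hp'.2.2.2.2.2)
          · have h1 := hxy h
            have h2 := hxy h'
            simp only [Finset.mem_insert, Finset.mem_singleton] at h1 h2
            rcases h1 with rfl | rfl <;> rcases h2 with rfl | rfl
            · exact absurd rfl (hirr hps)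
            · exact Or.inl ⟨rfl, rfl⟩
            · exact Or.inr ⟨rfl, rfl⟩
            · exact absurd rfl (hirr hps)
      · exfalso
        have hsA : s ∉ ({a, b} ∪ T : Finset α) := fun h => hpA (hside.2 h)
        have hcase : ∀ z ∈ W, z ∉ ({a, b} ∪ T : Finset α) → z = v ∨ z = a' ∨ z = b' := by
          intro z hz hzn
          simp only [Finset.mem_union, Finset.mem_insert, Finset.mem_singleton, not_or] at hzn
          by_contra hcon
          push Not at hcon
          exact hzn.2 ((hTmem z).2 ⟨hz, hcon.1, hzn.1.1, hzn.1.2, hcon.2.1, hcon.2.2⟩)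
        have hva' : ¬ G.Adj v a' := by
          intro h
          rcases hvN a' ha'W h with h | h
          · exact hirr haa' h.symm
          · exact ha'b h
        have hvb' : ¬ G.Adj v b' := by
          intro h
          rcases hvN b' hb'W h with h | h
          · exact hb'a h
          · exact hirr hbb' h.symm
        rcases hcase p hp hpA with h | h | h <;> rcases hcase s hs hsA with h' | h' | h' <;>
          subst h <;> subst h'
        · exact hirr hps rfl
        · exact hva' hps
        · exact hvb' hps
        · exact hva' hps.symm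
        · exact hirr hps rfl
        · exact hab' hps
        · exact hvb' hps.symm
        · exact hab' hps.symm
        · exact hirr hps rfl

/-- A triangle-free graph on at most seven vertices becomes bipartite after deleting at most one
edge. -/
theorem NB_of_card_le_seven : ∀ (k : ℕ) (W : Finset α), W.card = k → k ≤ 7 → TF G W →
    (Nonempty α) → NB G W := by
  classical
  intro k
  induction k using Nat.strong_induction_on with
  | _ k ih =>
    intro W hW hk hT hne
    rcases W.eq_empty_or_nonempty with h0 | ⟨v0, hv0⟩
    · obtain ⟨z⟩ := hne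
      exact ⟨∅, z, z, by simp [h0]⟩
    by_cases h1 : ∃ w ∈ W, (nb G W w).card ≤ 1
    · obtain ⟨w, hw, hdeg⟩ := h1
      refine NB_insert hw hdeg ?_
      have hc : (W.erase w).card = k - 1 := by rw [Finset.card_erase_of_mem hw, hW]
      have hpos : 0 < k := by rw [← hW]; exact Finset.card_pos.2 ⟨w, hw⟩
      exact ih (k - 1) (by omega) (W.erase w) hc (by omega)
        (hT.mono (Finset.erase_subset _ _)) hne
    · push Not at h1
      by_cases h4 : ∃ w ∈ W, 4 ≤ (nb G W w).card
      · obtain ⟨w, hw, h⟩ := h4
        exact NB_of_four hT (by omega) hw h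
      · push Not at h4
        by_cases h3 : ∃ w ∈ W, (nb G W w).card = 3
        · obtain ⟨w, hw, h⟩ := h3
          exact NB_of_three hT (by omega) hw h (fun z hz => by have := h4 z hz; omega)
        · push Not at h3
          refine NB_of_two hT (by omega) (fun z hz => ?_) hv0
          have a1 := h1 z hz
          have a2 := h4 z hz
          have a3 := h3 z hz
          omega

end Pool.Agent.H60.CT
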