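import Mathlib
import Pool.Prelude.Def_F_6b01053b

set_option autoImplicit false

namespace Pool.Agent.H60.CT

open SimpleGraph

/-- The defining property of `H m` (`N514b8c3a.H`, the function of the problem): every
triangle-free graph on `m` vertices has an independent set of `H m` vertices. -/
lemma H_spec (m : ℕ) (G : SimpleGraph (Fin m)) (hG : G.CliqueFree 3) :
    ∃ s, G.IsNIndepSet (N514b8c3a.H m) s := by
  have hne : ({k | ∀ G : SimpleGraph (Fin m), G.CliqueFree 3 → ∃ s, G.IsNIndepSet k s} :
      Set ℕ).Nonempty := by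
    refine ⟨0, fun G _ => ⟨∅, ?_⟩⟩
    rw [isNIndepSet_iff]
    constructor
    · intro x hx
      simp at hx
    · simp
  have hbdd : BddAbove {k | ∀ G : SimpleGraph (Fin m), G.CliqueFree 3 →
      ∃ s, G.IsNIndepSet k s} := by
    refine ⟨m, ?_⟩
    intro k hk
    obtain ⟨s, hs⟩ := hk ⊥ (by
      intro t ht
      have h2 : 1 < t.card := by
        rw [ht.card_eq]
        norm_num
      obtain ⟨x, hx, y, hy, hxy⟩ := Finset.one_lt_card.mp h2
      exact (ht.isClique hx hy hxy).elim)
    have := hs.card_eq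
    rw [← this]
    simpa using Finset.card_le_univ s
  exact Nat.sSup_mem hne hbdd G hG

/-- If the edges of `G` inside a vertex set `U` can be covered by two triangle-free graphs, then
`τ(G) ≤ n - H(|U|)`. -/
theorem tau_le_of_two (n : ℕ) (G : SimpleGraph (Fin n)) (U : Finset (Fin n))
    (R B : SimpleGraph (Fin n)) (hR : R.CliqueFree 3) (hB : B.CliqueFree 3)
    (hRB : ∀ x ∈ U, ∀ y ∈ U, G.Adj x y → R.Adj x y ∨ B.Adj x y) :
    G.cliqueTransversalNumber ≤ n - N514b8c3a.H U.card := by
  classical
  -- the edges of `G` in no triangle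
  let E : SimpleGraph (Fin n) :=
    { Adj := fun x y => G.Adj x y ∧ ∀ z, ¬ (G.Adj x z ∧ G.Adj y z)
      symm := ⟨fun x y h => ⟨h.1.symm, fun z hz => h.2 z ⟨hz.2, hz.1⟩⟩⟩
      loopless := ⟨fun x h => G.loopless.irrefl x h.1⟩ }
  -- the auxiliary triangle-free graph
  let G' : SimpleGraph (Fin n) := (R ⊓ G) ⊔ E
  have hG'G : ∀ x y, G'.Adj x y → G.Adj x y := by
    intro x y h
    rcases h with h | h
    · exact h.2
    · exact h.1
  have hG'R : ∀ x y z, G'.Adj x y → G'.Adj x z → G'.Adj y z → R.Adj x y := by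
    intro x y z hxy hxz hyz
    rcases hxy with h | h
    · exact h.1
    · exact absurd ⟨hG'G _ _ hxz, hG'G _ _ hyz⟩ (h.2 z)
  have hG' : G'.CliqueFree 3 := by
    intro t ht
    obtain ⟨a, b, c, hab, hac, hbc, rfl⟩ := is3Clique_iff.mp ht
    apply hR {a, b, c}
    rw [is3Clique_iff]
    exact ⟨a, b, c, hG'R a b c hab hac hbc, hG'R a c b hac hab hbc.symm,
      hG'R b c a hbc hab.symm hac.symm, rfl⟩
  -- transport to `Fin |U|`
  let e : Fin U.card ↪o Fin n := U.orderEmbOfFin rfl
  have hcomap : (G'.comap e).CliqueFree 3 := by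
    have f : G'.comap e ↪g G' := SimpleGraph.Embedding.comap e.toEmbedding G'
    exact hG'.comap f.isContained
  obtain ⟨s, hs⟩ := H_spec U.card (G'.comap e) hcomap
  have hscard := hs.card_eq
  have hsind := hs.isIndepSet
  set S : Finset (Fin n) := s.map e.toEmbedding with hS
  have hSU : ∀ x ∈ S, x ∈ U := by
    intro x hx
    rw [hS, Finset.mem_map] at hx
    obtain ⟨a, _, rfl⟩ := hx
    exact Finset.orderEmbOfFin_mem U rfl a
  have hSind : ∀ x ∈ S, ∀ y ∈ S, ¬ G'.Adj x y := by
    intro x hx y hy hxy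
    rw [hS, Finset.mem_map] at hx hy
    obtain ⟨a, ha, rfl⟩ := hx
    obtain ⟨b, hb, rfl⟩ := hy
    have hab : a ≠ b := by
      rintro rfl
      exact G'.loopless.irrefl _ hxy
    exact hsind ha hb hab hxy
  have hSB : ∀ x ∈ S, ∀ y ∈ S, G.Adj x y → B.Adj x y := by
    intro x hx y hy hxy
    rcases hRB x (hSU x hx) y (hSU y hy) hxy with h | h
    · exact absurd (Or.inl ⟨h, hxy⟩) (hSind x hx y hy)
    · exact h
  have hT : G.IsCliqueTransversal (Finset.univ \ S) := by
    intro t ht
    by_contra hcon
    push Not at hcon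
    have htS : ∀ v ∈ t, v ∈ S := by
      intro v hv
      by_contra hvS
      exact hcon v hv (by simp [hvS])
    obtain ⟨hmax, hcard⟩ := ht
    rcases Nat.lt_or_ge t.card 3 with h3 | h3
    · have h2 : t.card = 2 := by omega
      obtain ⟨x, y, hxy, rfl⟩ := Finset.card_eq_two.mp h2
      have hadj : G.Adj x y := hmax.1 (by simp) (by simp) hxy
      apply hSind x (htS x (by simp)) y (htS y (by simp))
      refine Or.inr ⟨hadj, ?_⟩
      rintro z ⟨hxz, hyz⟩
      have hcl : G.IsClique ((insert z {x, y} : Finset (Fin n)) : Set (Fin n)) := by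
        rw [Finset.coe_insert, isClique_insert]
        refine ⟨hmax.1, ?_⟩
        intro w hw hzw
        simp only [Finset.coe_insert, Finset.coe_singleton, Set.mem_insert_iff,
          Set.mem_singleton_iff] at hw
        rcases hw with rfl | rfl
        · exact hxz.symm
        · exact hyz.symm
      have hle := hmax.2 hcl (by
        intro w hw
        exact Finset.mem_insert_of_mem hw)
      have hz : z ∈ ({x, y} : Finset (Fin n)) := hle (Finset.mem_insert_self _ _)
      simp only [Finset.mem_insert, Finset.mem_singleton] at hz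
      rcases hz with rfl | rfl
      · exact G.loopless.irrefl _ hxz
      · exact G.loopless.irrefl _ hyz
    · obtain ⟨t', ht't, ht'⟩ := Finset.exists_subset_card_eq h3
      apply hB t'
      rw [isNClique_iff]
      refine ⟨?_, ht'⟩
      intro x hx y hy hxy
      exact hSB x (htS x (ht't hx)) y (htS y (ht't hy)) (hmax.1 (ht't hx) (ht't hy) hxy)
  have hTcard : (Finset.univ \ S).card = n - N514b8c3a.H U.card := by
    rw [Finset.card_sdiff_of_subset (Finset.subset_univ _), hS, Finset.card_map, hscard]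
    simp
  have hmem : (n - N514b8c3a.H U.card) ∈
      {k | ∃ T : Finset (Fin n), G.IsCliqueTransversal T ∧ T.card = k} :=
    ⟨_, hT, hTcard⟩
  exact Nat.sInf_le hmem

end Pool.Agent.H60.CT
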